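import Pool.Agent.R304.DS.Gen
import Pool.Agent.R304.SG.ZR

/-! Hardy's function of a primitive Dirichlet character. -/

open Complex Filter Topology Set

namespace Pool.Agent.R304.DS

open H370 H370.DL

variable {q : ℕ} [NeZero q]

/-- the phase -/
noncomputable def phase (χ : DirichletCharacter ℂ q) (t : ℝ) : ℂ :=
  cexp (I * (t / 2) * Real.log q) * (DirichletCharacter.gammaFactor χ (1 / 2 + I * t) /
    ‖DirichletCharacter.gammaFactor χ (1 / 2 + I * t)‖)

lemma aa_re (χ : DirichletCharacter ℂ q) : 0 ≤ (aa χ).re := by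
  unfold aa
  split_ifs <;> simp

lemma aa_conj (χ : DirichletCharacter ℂ q) : (starRingEnd ℂ) (aa χ) = aa χ := by
  unfold aa
  split_ifs <;> simp

lemma gf_ne (χ : DirichletCharacter ℂ q) (t : ℝ) :
    DirichletCharacter.gammaFactor χ (1 / 2 + I * t) ≠ 0 := by
  rw [gammaFactor_eq]
  apply Gammaℝ_ne_zero_of_re_pos
  have := aa_re χ
  simp
  linarith

lemma gf_cont (χ : DirichletCharacter ℂ q) :
    Continuous fun t : ℝ => DirichletCharacter.gammaFactor χ (1 / 2 + I * t) := by
  have h1 : Continuous fun s : ℂ => (Gammaℝ s)⁻¹ := differentiable_Gammaℝ_inv.continuous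
  have h2 : Continuous fun t : ℝ => (Gammaℝ (1 / 2 + I * t + aa χ))⁻¹ :=
    h1.comp (by fun_prop)
  have h3 : Continuous fun t : ℝ => ((Gammaℝ (1 / 2 + I * t + aa χ))⁻¹)⁻¹ := by
    refine h2.inv₀ fun t => ?_
    have := gf_ne χ t
    rw [gammaFactor_eq] at this
    exact inv_ne_zero this
  simp_rw [inv_inv] at h3
  simp_rw [gammaFactor_eq]
  exact h3

lemma norm_ne (χ : DirichletCharacter ℂ q) (t : ℝ) :
    ((‖DirichletCharacter.gammaFactor χ (1 / 2 + I * t)‖ : ℝ) : ℂ) ≠ 0 := by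
  rw [Complex.ofReal_ne_zero]
  exact norm_ne_zero_iff.mpr (gf_ne χ t)

lemma phase_cont (χ : DirichletCharacter ℂ q) : Continuous (phase χ) := by
  unfold phase
  refine Continuous.mul (by fun_prop) ((gf_cont χ).div ?_ (norm_ne χ))
  exact Complex.continuous_ofReal.comp (gf_cont χ).norm

lemma phase_ne (χ : DirichletCharacter ℂ q) (t : ℝ) : phase χ t ≠ 0 := by
  unfold phase
  exact mul_ne_zero (Complex.exp_ne_zero _) (div_ne_zero (gf_ne χ t) (norm_ne χ t))

lemma gf_conj (χ : DirichletCharacter ℂ q) (t : ℝ) :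
    (starRingEnd ℂ) (Gammaℝ (1 / 2 + I * t + aa χ)) = Gammaℝ (1 - (1 / 2 + I * t) + aa χ) := by
  rw [← SG.GR_conj, map_add, aa_conj, SG.half_conj]

lemma L_line (χ : DirichletCharacter ℂ q) (hχ : χ.IsPrimitive) {t : ℝ} (ht : t ≠ 0) :
    DirichletCharacter.LFunction χ (1 / 2 + I * t) =
      cexp (-(I * t * Real.log q)) * DirichletCharacter.rootNumber χ *
        ((starRingEnd ℂ) (DirichletCharacter.gammaFactor χ (1 / 2 + I * t)) /
          DirichletCharacter.gammaFactor χ (1 / 2 + I * t)) *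
        (starRingEnd ℂ) (DirichletCharacter.LFunction χ (1 / 2 + I * t)) := by
  have him : (1 / 2 + I * t : ℂ).im ≠ 0 := by simpa using ht
  have h := func_eq hχ him
  have e1 : H370.DL.refl (DirichletCharacter.LFunction χ) (1 / 2 + I * t) =
      (starRingEnd ℂ) (DirichletCharacter.LFunction χ (1 / 2 + I * t)) := by
    unfold H370.DL.refl
    rw [SG.half_conj]
    congr 2
    ring
  have e2 : (q : ℂ) ^ (1 / 2 - (1 / 2 + I * t) : ℂ) = cexp (-(I * t * Real.log q)) := by
    have hq : ((q : ℕ) : ℂ) ≠ 0 := natCast_q_ne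
    rw [Complex.cpow_def_of_ne_zero hq, Complex.natCast_log]
    congr 1
    ring
  rw [e1] at h
  unfold XX at h
  rw [e2] at h
  rw [gammaFactor_eq, gf_conj]
  rw [mul_div_assoc] at h
  exact h

lemma exists_ne (χ : DirichletCharacter ℂ q) (hχ : χ.IsPrimitive) :
    ∃ t : ℝ, 0 < t ∧ DirichletCharacter.LFunction χ (1 / 2 + I * t) ≠ 0 := by
  by_contra hcon
  push Not at hcon
  have hfin := zset_finite' (good_dirichlet χ hχ) 1 2 one_pos
  have hinj : Function.Injective fun t : ℝ => (1 / 2 + I * t : ℂ) := by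
    intro a b hab
    have := congrArg Complex.im hab
    simpa using this
  have h1 : ((fun t : ℝ => (1 / 2 + I * t : ℂ)) '' Ioc 1 2).Infinite :=
    (Set.Ioc_infinite (by norm_num : (1 : ℝ) < 2)).image hinj.injOn
  refine h1 (hfin.subset ?_)
  rintro s ⟨t, ht, rfl⟩
  refine ⟨by simp, by simp; norm_num, by simpa using ht.1, by simpa using ht.2,
    hcon t (by linarith [ht.1])⟩

lemma root_norm (χ : DirichletCharacter ℂ q) (hχ : χ.IsPrimitive) :
    ‖DirichletCharacter.rootNumber χ‖ = 1 := by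
  obtain ⟨t, ht, hne⟩ := exists_ne χ hχ
  have h := congrArg norm (L_line χ hχ ht.ne')
  have hg : ‖DirichletCharacter.gammaFactor χ (1 / 2 + I * t)‖ ≠ 0 :=
    norm_ne_zero_iff.mpr (gf_ne χ t)
  have hL : ‖DirichletCharacter.LFunction χ (1 / 2 + I * t)‖ ≠ 0 := norm_ne_zero_iff.mpr hne
  have he : ‖cexp (-(I * t * Real.log q))‖ = 1 := by
    rw [show -(I * t * Real.log q) = ((-(t * Real.log q) : ℝ) : ℂ) * I by push_cast; ring]
    exact Complex.norm_exp_ofReal_mul_I _
  rw [norm_mul, norm_mul, norm_mul, norm_div, RCLike.norm_conj, RCLike.norm_conj, he,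
    div_self hg, one_mul, mul_one] at h
  have h2 : (‖DirichletCharacter.rootNumber χ‖ - 1) *
      ‖DirichletCharacter.LFunction χ (1 / 2 + I * t)‖ = 0 := by linarith
  rcases mul_eq_zero.mp h2 with h3 | h3
  · linarith
  · exact absurd h3 hL

/-- the conjugate of the product -/
lemma conj_prod (χ : DirichletCharacter ℂ q) (hχ : χ.IsPrimitive) {u : ℂ} (hu : ‖u‖ = 1)
    (hu2 : u ^ 2 * DirichletCharacter.rootNumber χ = 1) {t : ℝ} (ht : t ≠ 0) :
    (starRingEnd ℂ) (u * phase χ t * DirichletCharacter.LFunction χ (1 / 2 + I * t)) =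
      u * phase χ t * DirichletCharacter.LFunction χ (1 / 2 + I * t) := by
  have h := L_line χ hχ ht
  have hu0 : u ≠ 0 := by
    intro h0
    rw [h0, norm_zero] at hu
    exact one_ne_zero hu.symm
  have hcu : (starRingEnd ℂ) u = u⁻¹ := (Complex.inv_eq_conj hu).symm
  have hcu' : (starRingEnd ℂ) u = u * DirichletCharacter.rootNumber χ := by
    rw [hcu]
    field_simp
    linear_combination -hu2
  have he : (starRingEnd ℂ) (cexp (I * (t / 2) * Real.log q)) =
      cexp (-(I * (t / 2) * Real.log q)) := by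
    have e : (I * (t / 2) * Real.log q : ℂ) = (((t / 2) * Real.log q : ℝ) : ℂ) * I := by
      push_cast; ring
    rw [e, ← Complex.exp_conj, map_mul, Complex.conj_ofReal, Complex.conj_I]
    congr 1
    ring
  have he2 : cexp (I * (t / 2) * Real.log q) * cexp (-(I * t * Real.log q)) =
      cexp (-(I * (t / 2) * Real.log q)) := by
    rw [← Complex.exp_add]
    congr 1
    ring
  have hg := gf_ne χ t
  have hn := norm_ne χ t
  unfold phase
  rw [map_mul, map_mul, map_mul, map_div₀, Complex.conj_ofReal, hcu', he]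
  conv_rhs => rw [h]
  rw [← he2]
  clear h he he2 hcu hcu' hu2
  generalize DirichletCharacter.gammaFactor χ (1 / 2 + I * t) = G at *
  generalize (starRingEnd ℂ) (DirichletCharacter.LFunction χ (1 / 2 + I * t)) = L at *
  generalize cexp (I * (t / 2) * Real.log q) = a at *
  generalize cexp (-(I * t * Real.log q)) = b at *
  generalize (starRingEnd ℂ) G = G' at *
  generalize ((‖G‖ : ℝ) : ℂ) = n at *
  field_simp

lemma real_prod (χ : DirichletCharacter ℂ q) (hχ : χ.IsPrimitive) {u : ℂ} (hu : ‖u‖ = 1)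
    (hu2 : u ^ 2 * DirichletCharacter.rootNumber χ = 1) (t : ℝ) :
    (u * phase χ t * DirichletCharacter.LFunction χ (1 / 2 + I * t)).im = 0 := by
  have hc : Continuous fun t : ℝ =>
      (u * phase χ t * DirichletCharacter.LFunction χ (1 / 2 + I * t)).im := by
    refine Complex.continuous_im.comp ((continuous_const.mul (phase_cont χ)).mul ?_)
    rw [continuous_iff_continuousAt]
    intro t
    exact ContinuousAt.comp (g := DirichletCharacter.LFunction χ)
      (f := fun t : ℝ => (1 / 2 + I * t : ℂ)) (analyticAt_L (SG.half_ne_one t)).continuousAt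
      (by fun_prop)
  have h1 : ∀ t : ℝ, t ≠ 0 →
      (u * phase χ t * DirichletCharacter.LFunction χ (1 / 2 + I * t)).im = 0 := fun t ht =>
    Complex.conj_eq_iff_im.mp (conj_prod χ hχ hu hu2 ht)
  have h2 : (fun t : ℝ => (u * phase χ t * DirichletCharacter.LFunction χ (1 / 2 + I * t)).im) =
      fun _ => 0 := by
    refine Continuous.ext_on (s := {(0 : ℝ)}ᶜ) (dense_compl_singleton (0 : ℝ)) hc
      continuous_const fun t ht => h1 t ht
  exact congrFun h2 t

lemma exists_u (χ : DirichletCharacter ℂ q) (hχ : χ.IsPrimitive) : ∃ u : ℂ, ‖u‖ = 1 ∧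
    u ^ 2 * DirichletCharacter.rootNumber χ = 1 := by
  obtain ⟨u, hu⟩ := IsAlgClosed.exists_pow_nat_eq (DirichletCharacter.rootNumber χ)⁻¹ (n := 2)
    (by norm_num)
  have h0 := rootNumber_ne_zero hχ
  refine ⟨u, ?_, by rw [hu, inv_mul_cancel₀ h0]⟩
  have h1 := congrArg norm hu
  rw [norm_pow, norm_inv, root_norm χ hχ, inv_one] at h1
  have h2 := norm_nonneg u
  nlinarith [sq_nonneg (‖u‖ - 1)]

lemma unique_u (χ : DirichletCharacter ℂ q) (hχ : χ.IsPrimitive) {u v : ℂ} (hu : ‖u‖ = 1)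
    (hv : ‖v‖ = 1)
    (h1 : ∀ t : ℝ, (u * phase χ t * DirichletCharacter.LFunction χ (1 / 2 + I * t)).im = 0)
    (h2 : ∀ t : ℝ, (v * phase χ t * DirichletCharacter.LFunction χ (1 / 2 + I * t)).im = 0) :
    v = u ∨ v = -u := by
  obtain ⟨t, ht, hne⟩ := exists_ne χ hχ
  obtain ⟨w, hw⟩ : ∃ w, w = phase χ t * DirichletCharacter.LFunction χ (1 / 2 + I * t) := ⟨_, rfl⟩
  have hw0 : w ≠ 0 := by rw [hw]; exact mul_ne_zero (phase_ne χ t) hne
  have a1 : (starRingEnd ℂ) (u * w) = u * w := by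
    rw [Complex.conj_eq_iff_im, hw, ← mul_assoc]; exact h1 t
  have a2 : (starRingEnd ℂ) (v * w) = v * w := by
    rw [Complex.conj_eq_iff_im, hw, ← mul_assoc]; exact h2 t
  have hu0 : u ≠ 0 := by
    intro h0
    rw [h0, norm_zero] at hu
    exact one_ne_zero hu.symm
  have hv0 : v ≠ 0 := by
    intro h0
    rw [h0, norm_zero] at hv
    exact one_ne_zero hv.symm
  rw [map_mul, ← Complex.inv_eq_conj hu] at a1
  rw [map_mul, ← Complex.inv_eq_conj hv] at a2
  have b1 : (starRingEnd ℂ) w = u ^ 2 * w := by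
    have : u * (u⁻¹ * (starRingEnd ℂ) w) = u * (u * w) := by rw [a1]
    rw [← mul_assoc, mul_inv_cancel₀ hu0, one_mul] at this
    rw [this]; ring
  have b2 : (starRingEnd ℂ) w = v ^ 2 * w := by
    have : v * (v⁻¹ * (starRingEnd ℂ) w) = v * (v * w) := by rw [a2]
    rw [← mul_assoc, mul_inv_cancel₀ hv0, one_mul] at this
    rw [this]; ring
  have b3 : v ^ 2 = u ^ 2 := mul_right_cancel₀ hw0 (b2.symm.trans b1)
  exact sq_eq_sq_iff_eq_or_eq_neg.mp b3

theorem hyp (χ : DirichletCharacter ℂ q) (hχ : χ.IsPrimitive) {u : ℂ} (hu : ‖u‖ = 1)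
    (h1 : ∀ t : ℝ, (u * phase χ t * DirichletCharacter.LFunction χ (1 / 2 + I * t)).im = 0) :
    Hyp (DirichletCharacter.LFunction χ) (fun t => u * phase χ t) := by
  refine ⟨good_dirichlet χ hχ, fun t => analyticAt_L (SG.half_ne_one t),
    continuous_const.mul (phase_cont χ), fun t => mul_ne_zero ?_ (phase_ne χ t), h1⟩
  intro h0
  rw [h0, norm_zero] at hu
  exact one_ne_zero hu.symm

end Pool.Agent.R304.DS
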