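import Pool.Agent.R304.SG.Jump
import Pool.Agent.W69.DZ.Short
import Pool.Agent.W69.DZ.Dyadic
import Pool.Agent.W69.DZ.Zero
import Pool.Agent.H370R2.Final
import Pool.Agent.H370R2.DirGood

/-! The signs of the derivative of Hardy's function at its zeros, for general L-functions. -/

open Complex Filter Topology Set

namespace Pool.Agent.R304.DS

open H370 R304.SG

/-- Hardy's function -/
noncomputable def Z (F : ℂ → ℂ) (φ : ℝ → ℂ) (t : ℝ) : ℂ := φ t * F (1 / 2 + I * t)

/-- the hypotheses on the function and on the phase -/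
structure Hyp (F : ℂ → ℂ) (φ : ℝ → ℂ) : Prop where
  good : GoodL F
  an : ∀ t : ℝ, AnalyticAt ℂ F (1 / 2 + I * t)
  cont : Continuous φ
  ne : ∀ t, φ t ≠ 0
  real : ∀ t, (Z F φ t).im = 0

variable {F : ℂ → ℂ} {φ : ℝ → ℂ}

lemma Z_zero_iff (h : Hyp F φ) (t : ℝ) : Z F φ t = 0 ↔ F (1 / 2 + I * t) = 0 := by
  unfold Z
  rw [mul_eq_zero]
  exact ⟨fun h1 => h1.resolve_left (h.ne t), Or.inr⟩

lemma Z_cont (h : Hyp F φ) : Continuous (Z F φ) := by
  unfold Z
  refine h.cont.mul ?_
  rw [continuous_iff_continuousAt]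
  intro t
  exact ContinuousAt.comp (f := fun t : ℝ => (1 / 2 + I * t : ℂ)) (h.an t).continuousAt
    (by fun_prop)

lemma Z_re (h : Hyp F φ) (t : ℝ) : ((Z F φ t).re : ℂ) = Z F φ t := by
  apply Complex.ext
  · simp
  · simp [h.real]

/-- the derivative at a zero -/
lemma Z_hasDerivAt (h : Hyp F φ) (t : ℝ) (h0 : F (1 / 2 + I * t) = 0) :
    HasDerivAt (Z F φ) (φ t * (deriv F (1 / 2 + I * t) * I)) t := by
  have hg : HasDerivAt (fun u : ℝ => F (1 / 2 + I * u)) (deriv F (1 / 2 + I * t) * I) t := by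
    have h1 : HasDerivAt (fun u : ℝ => (1 / 2 + I * u : ℂ)) I t := by
      have h2 : HasDerivAt (fun u : ℝ => (u : ℂ)) 1 t := Complex.ofRealCLM.hasDerivAt
      simpa using (h2.const_mul I).const_add (1 / 2 : ℂ)
    exact HasDerivAt.comp (h₂ := F) t (h.an t).differentiableAt.hasDerivAt h1
  rw [hasDerivAt_iff_tendsto_slope] at hg ⊢
  have h3 : Tendsto φ (𝓝[≠] t) (𝓝 (φ t)) :=
    h.cont.continuousAt.tendsto.mono_left nhdsWithin_le_nhds
  refine (h3.mul hg).congr fun u => ?_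
  have hZ : Z F φ t = 0 := (Z_zero_iff h t).mpr h0
  rw [slope_def_module, slope_def_module, hZ, h0, sub_zero, sub_zero]
  unfold Z
  simp only [Complex.real_smul]
  ring

lemma simple_of_order (h : Hyp F φ) {t : ℝ} (h0 : F (1 / 2 + I * t) = 0)
    (h1 : analyticOrderNatAt F (1 / 2 + I * t) = 1) : deriv (Z F φ) t ≠ 0 := by
  rw [(Z_hasDerivAt h t h0).deriv]
  refine mul_ne_zero (h.ne t) (mul_ne_zero ?_ I_ne_zero)
  have ha := h.an t
  have h2 : analyticOrderAt F (1 / 2 + I * t) = 1 := by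
    unfold analyticOrderNatAt at h1
    have h3 : analyticOrderAt F (1 / 2 + I * t) ≠ ⊤ := by
      intro h4; rw [h4] at h1; simp at h1
    rw [← ENat.coe_toNat h3, h1]; rfl
  have h3 := ha.analyticOrderAt_deriv_add_one
  simp only [h0, sub_zero] at h3
  rw [h2] at h3
  intro h4
  have h5 : 1 ≤ analyticOrderAt (deriv F) (1 / 2 + I * t) :=
    ENat.one_le_iff_ne_zero.mpr (ha.deriv.analyticOrderAt_ne_zero.mpr h4)
  have h6 : (1 : ℕ∞) + 1 ≤ 1 := by
    calc (1 : ℕ∞) + 1 ≤ analyticOrderAt (deriv F) (1 / 2 + I * t) + 1 := by gcongr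
      _ = 1 := h3
  exact absurd h6 (by decide)

/-- the local behaviour at a zero of finite order -/
theorem local_behaviour (h : Hyp F φ) (u : ℝ) (m : ℕ)
    (hm : analyticOrderAt F (1 / 2 + I * u) = m) :
    ∃ c : ℝ, c ≠ 0 ∧ Tendsto (fun t : ℝ => (Z F φ t).re / (t - u) ^ m) (𝓝[≠] u) (𝓝 c) := by
  obtain ⟨g, hg, hg0, hev⟩ := ((h.an u).analyticOrderAt_eq_natCast).mp hm
  have hline : Continuous fun t : ℝ => (1 / 2 + I * t : ℂ) := by fun_prop
  have h1 : Tendsto (fun t : ℝ => Z F φ t / ((t : ℂ) - u) ^ m) (𝓝[≠] u)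
      (𝓝 (φ u * (I ^ m * g (1 / 2 + I * u)))) := by
    have h2 : Tendsto (fun t : ℝ => φ t * (I ^ m * g (1 / 2 + I * t))) (𝓝[≠] u)
        (𝓝 (φ u * (I ^ m * g (1 / 2 + I * u)))) := by
      refine Tendsto.mono_left ?_ nhdsWithin_le_nhds
      refine (h.cont.tendsto u).mul (Tendsto.const_mul _ ?_)
      exact (hg.continuousAt.tendsto).comp (hline.tendsto u)
    refine h2.congr' ?_
    have h3 : ∀ᶠ t : ℝ in 𝓝[≠] u, F (1 / 2 + I * t) =
        ((1 / 2 + I * t : ℂ) - (1 / 2 + I * u)) ^ m • g (1 / 2 + I * t) :=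
      ((hline.tendsto u).eventually hev).filter_mono nhdsWithin_le_nhds
    filter_upwards [h3, self_mem_nhdsWithin] with t ht hne
    have hne' : ((t : ℂ) - u) ≠ 0 := by
      rw [← Complex.ofReal_sub, Complex.ofReal_ne_zero]
      exact sub_ne_zero.mpr hne
    unfold Z
    rw [ht, smul_eq_mul]
    have e : (1 / 2 + I * t : ℂ) - (1 / 2 + I * u) = I * (t - u) := by ring
    rw [e, mul_pow]
    field_simp
  have h4 : ∀ t : ℝ, (((Z F φ t).re / (t - u) ^ m : ℝ) : ℂ) = Z F φ t / ((t : ℂ) - u) ^ m := by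
    intro t
    push_cast
    rw [Z_re h]
  have h5 : Tendsto (fun t : ℝ => (((Z F φ t).re / (t - u) ^ m : ℝ) : ℂ)) (𝓝[≠] u)
      (𝓝 (φ u * (I ^ m * g (1 / 2 + I * u)))) := by
    simp_rw [h4]; exact h1
  obtain ⟨w, hw⟩ : ∃ w, w = φ u * (I ^ m * g (1 / 2 + I * u)) := ⟨_, rfl⟩
  have hw0 : w ≠ 0 := by
    rw [hw]
    exact mul_ne_zero (h.ne u) (mul_ne_zero (pow_ne_zero _ I_ne_zero) hg0)
  rw [← hw] at h5
  have h6 : Tendsto (fun t : ℝ => (((Z F φ t).re / (t - u) ^ m : ℝ) : ℂ).re) (𝓝[≠] u) (𝓝 w.re) :=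
    (Complex.continuous_re.tendsto w).comp h5
  have h7 : Tendsto (fun t : ℝ => (((Z F φ t).re / (t - u) ^ m : ℝ) : ℂ).im) (𝓝[≠] u) (𝓝 w.im) :=
    (Complex.continuous_im.tendsto w).comp h5
  have h8 : w.im = 0 := by
    simp only [Complex.ofReal_im] at h7
    exact (tendsto_nhds_unique h7 tendsto_const_nhds)
  refine ⟨w.re, fun h => hw0 (Complex.ext h h8), ?_⟩
  simpa only [Complex.ofReal_re] using h6

/-- at a zero with a derivative -/
theorem local_simple (h : Hyp F φ) {u : ℝ} {d : ℂ} (h0 : Z F φ u = 0)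
    (hd : HasDerivAt (Z F φ) d u) :
    d.im = 0 ∧ Tendsto (fun t : ℝ => (Z F φ t).re / (t - u)) (𝓝[≠] u) (𝓝 d.re) := by
  rw [hasDerivAt_iff_tendsto_slope] at hd
  have h4 : ∀ t : ℝ, slope (Z F φ) u t = (((Z F φ t).re / (t - u) : ℝ) : ℂ) := by
    intro t
    rw [slope_def_module, h0, sub_zero, Complex.real_smul]
    push_cast
    rw [Z_re h]
    ring
  have h5 : Tendsto (fun t : ℝ => (((Z F φ t).re / (t - u) : ℝ) : ℂ)) (𝓝[≠] u) (𝓝 d) := by
    refine hd.congr fun t => h4 t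
  have h6 : Tendsto (fun t : ℝ => (((Z F φ t).re / (t - u) : ℝ) : ℂ).re) (𝓝[≠] u) (𝓝 d.re) :=
    (Complex.continuous_re.tendsto d).comp h5
  have h7 : Tendsto (fun t : ℝ => (((Z F φ t).re / (t - u) : ℝ) : ℂ).im) (𝓝[≠] u) (𝓝 d.im) :=
    (Complex.continuous_im.tendsto d).comp h5
  constructor
  · simp only [Complex.ofReal_im] at h7
    exact (tendsto_nhds_unique h7 tendsto_const_nhds)
  · simpa only [Complex.ofReal_re] using h6

lemma exists_right (E : Finset ℝ) {x z : ℝ} (hxz : x < z) :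
    ∃ y, x < y ∧ y < z ∧ ∀ v ∈ E, x < v → y < v := by
  have h1 : ∀ᶠ y in 𝓝[>] x, y < z := (eventually_lt_nhds hxz).filter_mono nhdsWithin_le_nhds
  have h2 : ∀ᶠ y in 𝓝[>] x, ∀ v ∈ E, x < v → y < v := by
    rw [Filter.eventually_all_finset]
    intro v _
    by_cases hv : x < v
    · filter_upwards [(eventually_lt_nhds hv).filter_mono nhdsWithin_le_nhds] with y hy _
      exact hy
    · exact Eventually.of_forall fun y h => absurd h hv
  have h3 : ∀ᶠ y in 𝓝[>] x, x < y := self_mem_nhdsWithin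
  obtain ⟨y, h⟩ := (h1.and (h2.and h3)).exists
  exact ⟨y, h.2.2, h.1, h.2.1⟩

/-- the real zeros of `Z` in `(T₁, T₂]` -/
def RZ (F : ℂ → ℂ) (φ : ℝ → ℂ) (T₁ T₂ : ℝ) : Set ℝ := {t : ℝ | T₁ < t ∧ t ≤ T₂ ∧ Z F φ t = 0}

lemma RZ_finite (h : Hyp F φ) (T₁ T₂ : ℝ) (h1 : 0 < T₁) : (RZ F φ T₁ T₂).Finite := by
  have hinj : Function.Injective fun t : ℝ => (1 / 2 + I * t : ℂ) := by
    intro a b hab
    have := congrArg Complex.im hab
    simpa using this
  refine Set.Finite.of_finite_image ((zset_finite' h.good T₁ T₂ h1).subset ?_) hinj.injOn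
  rintro s ⟨t, ⟨h1, h2, h3⟩, rfl⟩
  refine ⟨?_, ?_, ?_, ?_, (Z_zero_iff h t).mp h3⟩ <;> simp <;> first | assumption | norm_num

/-- the order of vanishing is finite and positive -/
lemma order_nat (h : Hyp F φ) {u : ℝ} (hu : 0 < u) (h0 : Z F φ u = 0) :
    1 ≤ analyticOrderNatAt F (1 / 2 + I * u) ∧
    analyticOrderAt F (1 / 2 + I * u) = (analyticOrderNatAt F (1 / 2 + I * u) : ℕ) := by
  have h1 : 1 ≤ H370.mult F (1 / 2 + I * u) :=
    H370.Loc.mult_pos' h.good (by simpa using hu) ((Z_zero_iff h u).mp h0)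
  have h2 : 1 ≤ analyticOrderNatAt F (1 / 2 + I * u) := h1
  refine ⟨h2, ?_⟩
  unfold analyticOrderNatAt at h2 ⊢
  have h3 : analyticOrderAt F (1 / 2 + I * u) ≠ ⊤ := by
    intro h4; rw [h4] at h2; simp at h2
  exact (ENat.natCast_toNat h3).symm

/-- the jumps -/
lemma exists_jump (h : Hyp F φ) {u : ℝ} (hu : 0 < u) (h0 : Z F φ u = 0) : ∃ J : ℤ,
    IsJump (fun t => (Z F φ t).re) u J ∧ |J| ≤ 1 ∧
    (deriv (Z F φ) u ≠ 0 → J = sg (deriv (Z F φ) u).re ∧ (deriv (Z F φ) u).re ≠ 0) ∧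
    (deriv (Z F φ) u = 0 → analyticOrderNatAt F (1 / 2 + I * u) < 3 → J = 0) := by
  obtain ⟨hm1, hm2⟩ := order_nat h hu h0
  have hd := Z_hasDerivAt h u ((Z_zero_iff h u).mp h0)
  have hd' : HasDerivAt (Z F φ) (deriv (Z F φ) u) u := by
    rw [hd.deriv]; exact hd
  obtain ⟨g1, g2⟩ := local_simple h h0 hd'
  by_cases hz : deriv (Z F φ) u = 0
  · obtain ⟨c, hc, hlim⟩ := local_behaviour h u _ hm2
    have hne1 : analyticOrderNatAt F (1 / 2 + I * u) ≠ 1 := by
      intro h'
      exact simple_of_order h ((Z_zero_iff h u).mp h0) h' hz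
    by_cases h3 : analyticOrderNatAt F (1 / 2 + I * u) < 3
    · have h2 : analyticOrderNatAt F (1 / 2 + I * u) = 2 := by omega
      rw [h2] at hlim
      exact ⟨0, jump_two hc hlim, by norm_num, fun h => absurd hz h, fun _ _ => rfl⟩
    · obtain ⟨J, hJ1, hJ2⟩ := jump_any _ hc hlim
      exact ⟨J, hJ2, hJ1, fun h => absurd hz h, fun _ h => absurd h h3⟩
  · have hre : (deriv (Z F φ) u).re ≠ 0 := fun h => hz (Complex.ext h g1)
    refine ⟨sg (deriv (Z F φ) u).re, jump_one hre g2, ?_, fun _ => ⟨rfl, hre⟩,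
      fun h => absurd h hz⟩
    unfold sg; split_ifs <;> norm_num

open Classical in
/-- **balance**: the simple zeros with positive derivative and those with negative derivative
differ by at most `1` plus the excess multiplicity -/
theorem balance (h : Hyp F φ) {T₁ T₂ : ℝ} (h0 : 0 < T₁) (h12 : T₁ < T₂) :
    Ns F T₁ T₂ ≤ 2 * {t : ℝ | T₁ < t ∧ t ≤ T₂ ∧ Z F φ t = 0 ∧ 0 < (deriv (Z F φ) t).re}.ncard + 1 +
        W69DZ.EX F T₁ T₂ ∧
    Ns F T₁ T₂ ≤ 2 * {t : ℝ | T₁ < t ∧ t ≤ T₂ ∧ Z F φ t = 0 ∧ (deriv (Z F φ) t).re < 0}.ncard + 1 +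
        W69DZ.EX F T₁ T₂ := by
  have hfin := RZ_finite h T₁ T₂ h0
  set E := hfin.toFinset with hE
  have hmem : ∀ u, u ∈ E ↔ T₁ < u ∧ u ≤ T₂ ∧ Z F φ u = 0 := fun u => by
    rw [hE, Set.Finite.mem_toFinset]; rfl
  -- the jumps
  have hJ : ∀ u : ℝ, ∃ J : ℤ, u ∈ E → IsJump (fun t => (Z F φ t).re) u J ∧ |J| ≤ 1 ∧
    (deriv (Z F φ) u ≠ 0 → J = sg (deriv (Z F φ) u).re ∧ (deriv (Z F φ) u).re ≠ 0) ∧
    (deriv (Z F φ) u = 0 → analyticOrderNatAt F (1 / 2 + I * u) < 3 → J = 0) := by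
    intro u
    by_cases hu : u ∈ E
    · have hu' := (hmem u).mp hu
      obtain ⟨J, hJ⟩ := exists_jump h (by linarith [hu'.1]) hu'.2.2
      exact ⟨J, fun _ => hJ⟩
    · exact ⟨0, fun h => absurd h hu⟩
  choose J hJ using hJ
  -- the sum of the jumps
  have hZc : Continuous fun t => (Z F φ t).re := Complex.continuous_re.comp (Z_cont h)
  have hz0 : ∀ u, (Z F φ u).re = 0 → Z F φ u = 0 := fun u h' => by rw [← Z_re h, h']; simp
  obtain ⟨a, ha1, ha2, ha3⟩ := exists_right E h12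
  obtain ⟨b, hb1, hb2, hb3⟩ := exists_right (RZ_finite h T₂ (T₂ + 1) (by linarith)).toFinset
    (show T₂ < T₂ + 1 by linarith)
  have hsum := jump_sum hZc J E.card E rfl a b (by linarith)
    (fun h' => by
      have : a ∈ E := (hmem a).mpr ⟨ha1, ha2.le, hz0 a h'⟩
      exact lt_irrefl _ (ha3 a this ha1))
    (fun h' => by
      have : b ∈ (RZ_finite h T₂ (T₂ + 1) (by linarith)).toFinset := by
        rw [Set.Finite.mem_toFinset]
        exact ⟨hb1, hb2.le, hz0 b h'⟩
      exact lt_irrefl _ (hb3 b this hb1))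
    (fun u hau hub hu0 => by
      rcases le_or_gt u T₂ with h' | h'
      · exact (hmem u).mpr ⟨by linarith, h', hz0 u hu0⟩
      · have : u ∈ (RZ_finite h T₂ (T₂ + 1) (by linarith)).toFinset := by
          rw [Set.Finite.mem_toFinset]
          exact ⟨h', by linarith, hz0 u hu0⟩
        exact absurd (hb3 u this h') (by linarith))
    (fun u hu => ⟨ha3 u hu ((hmem u).mp hu).1, by linarith [((hmem u).mp hu).2.1]⟩)
    (fun u hu => (hJ u hu).1)
  have hsum1 : |∑ u ∈ E, J u| ≤ 1 := by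
    unfold sg at hsum
    rw [abs_le]
    split_ifs at hsum <;> constructor <;> omega
  -- the simple zeros
  set A := E.filter (fun u => deriv (Z F φ) u ≠ 0) with hA
  set P := E.filter (fun u => 0 < (deriv (Z F φ) u).re) with hP
  set Q := E.filter (fun u => (deriv (Z F φ) u).re < 0) with hQ
  set R : Finset ℝ := E.filter (fun u : ℝ => 3 ≤ analyticOrderNatAt F (1 / 2 + I * u))
    with hR
  have hAn : Ns F T₁ T₂ ≤ A.card := by
    have hle : Ns F T₁ T₂ ≤ ((A : Finset ℝ) : Set ℝ).ncard := by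
      unfold H370.Ns
      refine Set.ncard_le_ncard_of_injOn (fun s => s.im) ?_ ?_ (Finset.finite_toSet _)
      · rintro s ⟨⟨h1, h2, h3, h4, h5⟩, h6, h7⟩
        have hs : (1 / 2 + I * s.im : ℂ) = s := by
          apply Complex.ext
          · simp [h6]
          · simp
        rw [Finset.mem_coe, hA, Finset.mem_filter, hmem]
        refine ⟨⟨h3, h4, ?_⟩, ?_⟩
        · rw [Z_zero_iff h, hs]; exact h5
        · apply simple_of_order h
          · rw [hs]; exact h5
          · rw [hs]; exact h7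
      · rintro s ⟨-, h6, -⟩ s' ⟨-, h6', -⟩ h
        exact Complex.ext (h6.trans h6'.symm) h
    rwa [Set.ncard_coe_finset] at hle
  have hPn : {t : ℝ | T₁ < t ∧ t ≤ T₂ ∧ Z F φ t = 0 ∧ 0 < (deriv (Z F φ) t).re}.ncard = P.card := by
    rw [← Set.ncard_coe_finset]
    congr 1
    ext t
    rw [hP, Finset.coe_filter]
    simp only [Set.mem_ofPred_eq, hmem]
    tauto
  have hQn : {t : ℝ | T₁ < t ∧ t ≤ T₂ ∧ Z F φ t = 0 ∧ (deriv (Z F φ) t).re < 0}.ncard = Q.card := by
    rw [← Set.ncard_coe_finset]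
    congr 1
    ext t
    rw [hQ, Finset.coe_filter]
    simp only [Set.mem_ofPred_eq, hmem]
    tauto
  have hR1 : R.card ≤ W69DZ.EX F T₁ T₂ := by
    have hfz := zset_finite' h.good T₁ T₂ h0
    have e3 : W69DZ.EX F T₁ T₂ = ∑ s ∈ hfz.toFinset, W69DZ.ew F s :=
      finsum_mem_eq_finite_toFinset_sum _ hfz
    have hinj : Function.Injective fun t : ℝ => (1 / 2 + I * t : ℂ) := by
      intro a b hab
      have := congrArg Complex.im hab
      simpa using this
    rw [e3, ← Finset.card_image_of_injective R hinj, Finset.card_eq_sum_ones]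
    calc ∑ s ∈ R.image (fun t : ℝ => (1 / 2 + I * t : ℂ)), 1
        ≤ ∑ s ∈ R.image (fun t : ℝ => (1 / 2 + I * t : ℂ)), W69DZ.ew F s := by
          refine Finset.sum_le_sum fun s hs => ?_
          rw [Finset.mem_image] at hs
          obtain ⟨t, ht, rfl⟩ := hs
          rw [hR, Finset.mem_filter] at ht
          have h3 : 3 ≤ mult F (1 / 2 + I * t) := ht.2
          have hre : (1 / 2 + I * t : ℂ).re = 1 / 2 := by simp
          unfold W69DZ.ew
          rw [if_pos hre]
          omega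
      _ ≤ _ := by
          refine Finset.sum_le_sum_of_subset ?_
          intro s hs
          rw [Finset.mem_image] at hs
          obtain ⟨t, ht, rfl⟩ := hs
          rw [hR, Finset.mem_filter, hmem] at ht
          rw [Set.Finite.mem_toFinset]
          refine ⟨?_, ?_, ?_, ?_, (Z_zero_iff h t).mp ht.1.2.2⟩
          · simp
          · simp; norm_num
          · simpa using ht.1.1
          · simpa using ht.1.2.1
  -- splitting
  have hAPQ : A = P ∪ Q := by
    ext u
    rw [hA, hP, hQ, Finset.mem_filter, Finset.mem_union, Finset.mem_filter, Finset.mem_filter]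
    constructor
    · rintro ⟨hu, hd⟩
      have := ((hJ u hu).2.2.1 hd).2
      rcases lt_or_gt_of_ne this with h | h
      · exact Or.inr ⟨hu, h⟩
      · exact Or.inl ⟨hu, h⟩
    · rintro (⟨hu, hd⟩ | ⟨hu, hd⟩)
      · exact ⟨hu, fun h => by rw [h] at hd; simp at hd⟩
      · exact ⟨hu, fun h => by rw [h] at hd; simp at hd⟩
  have hdisj : Disjoint P Q := by
    rw [Finset.disjoint_left]
    intro u hu hu'
    rw [hP, Finset.mem_filter] at hu
    rw [hQ, Finset.mem_filter] at hu'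
    linarith [hu.2, hu'.2]
  have hcardA : A.card = P.card + Q.card := by
    rw [hAPQ, Finset.card_union_of_disjoint hdisj]
  have hsplit : ∑ u ∈ E, J u = (P.card : ℤ) - Q.card +
      ∑ u ∈ E.filter (fun u => deriv (Z F φ) u = 0), J u := by
    have h1 : ∑ u ∈ A, J u = (P.card : ℤ) - Q.card := by
      rw [hAPQ, Finset.sum_union hdisj]
      have h3 : ∑ u ∈ P, J u = P.card := by
        rw [Finset.sum_congr rfl (g := fun _ => (1 : ℤ))]
        · simp
        · intro u hu
          rw [hP, Finset.mem_filter] at hu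
          have hd : deriv (Z F φ) u ≠ 0 := fun h => by
            have := hu.2
            rw [h] at this; simp at this
          rw [((hJ u hu.1).2.2.1 hd).1]
          unfold sg
          rw [if_pos hu.2]
      have h4 : ∑ u ∈ Q, J u = -Q.card := by
        rw [Finset.sum_congr rfl (g := fun _ => (-1 : ℤ))]
        · simp
        · intro u hu
          rw [hQ, Finset.mem_filter] at hu
          have hd : deriv (Z F φ) u ≠ 0 := fun h => by
            have := hu.2
            rw [h] at this; simp at this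
          rw [((hJ u hu.1).2.2.1 hd).1]
          unfold sg
          rw [if_neg (by linarith [hu.2])]
      rw [h3, h4]; ring
    rw [← h1, hA, add_comm]
    have := Finset.sum_filter_add_sum_filter_not E (fun u => deriv (Z F φ) u = 0) J
    rw [← this]
  have hrest : |∑ u ∈ E.filter (fun u => deriv (Z F φ) u = 0), J u| ≤ R.card := by
    refine (Finset.abs_sum_le_sum_abs _ _).trans ?_
    have h1 : ∀ u ∈ E.filter (fun u => deriv (Z F φ) u = 0), |J u| ≤ if u ∈ R then 1 else 0 := by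
      intro u hu
      rw [Finset.mem_filter] at hu
      split_ifs with h
      · exact (hJ u hu.1).2.1
      · have h3 : analyticOrderNatAt F (1 / 2 + I * u) < 3 := by
          by_contra hcon
          push Not at hcon
          exact h (by rw [hR, Finset.mem_filter]; exact ⟨hu.1, hcon⟩)
        rw [(hJ u hu.1).2.2.2 hu.2 h3]
        simp
    refine (Finset.sum_le_sum h1).trans ?_
    rw [← Finset.sum_filter, Finset.sum_const, nsmul_eq_mul, mul_one]
    have : (E.filter (fun u => deriv (Z F φ) u = 0)).filter (fun u => u ∈ R) ⊆ R := by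
      intro u hu
      rw [Finset.mem_filter] at hu
      exact hu.2
    exact_mod_cast Finset.card_le_card this
  rw [hPn, hQn]
  rw [hsplit] at hsum1
  rw [abs_le] at hsum1 hrest
  constructor <;> omega

end Pool.Agent.R304.DS
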